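import Pool.Agent.CvF.Main
import Pool.Agent.CvD.Hyp
import Pool.Agent.Cov.ToG

/-!
# ALL CURVES: the end (definitions)

`GcHyp`: the orders of the ray class groups are definable (section 8 of the page; proved with
`FOG.card_fo`).
`ct`: the type of the coefficients of `f` and `D`. `fc p a`, `dc p a`: the polynomials.
-/

set_option autoImplicit false

noncomputable section

namespace Pool.Agent.CvG

open Polynomial Pool.Agent.Grz Pool.Agent.CvD Pool.Agent.CvB Pool.Agent.CvF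

/-- the polynomial in one unknown with the coefficients `x` -/
def uq {K : Type} [CommRing K] {s : ℕ} (x : Fin (s + 1) → K) : K[X] :=
  ∑ i : Fin (s + 1), C (x i) * X ^ (i : ℕ)

/-- indices of the coefficients of `f` and `D` -/
abbrev Ct (d Dl : ℕ) : Type := (Fin (d + 1) × Fin (d + 1)) ⊕ Fin (Dl + 1)

/-- the polynomial `f` -/
def fc (K : Type) [CommRing K] {d Dl : ℕ} (a : Ct d Dl → ℕ) : K[X][X] :=
  bq fun i => (a (Sum.inl i) : K)

/-- the polynomial `D` -/
def dc (K : Type) [CommRing K] {d Dl : ℕ} (a : Ct d Dl → ℕ) : K[X] :=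
  uq fun i => (a (Sum.inr i) : K)

/-- The orders of the ray class groups are definable. -/
def GcHyp : Prop := ∀ (d Dl s : ℕ), 1 ≤ d → 0 < s →
  ∃ N : ℕ → (Fin s → ℕ) → (Ct d Dl → ℕ) → ℕ,
    (∀ {n : ℕ} {p : (Fin n → ℕ) → ℕ} {c : Fin s → (Fin n → ℕ) → ℕ}
      {a : Ct d Dl → (Fin n → ℕ) → ℕ}, DFun n p → (∀ l, DFun n (c l)) → (∀ i, DFun n (a i)) →
      DFun n (fun v => N (p v) (fun l => c l v) fun i => a i v)) ∧
    ∀ (p : ℕ) [Fact p.Prime] (h : (ZMod p)[X]) [Fact (Irreducible h)], h.Monic →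
      h.natDegree = s → ∀ (c : Fin s → ℕ), (∀ l : Fin s, (c l : ZMod p) = h.coeff l) →
      ∀ (a : Ct d Dl → ℕ) (hOk : Ok (fm (AdjoinRoot h) (fc (ZMod p) a)) d
        (dm (AdjoinRoot h) (dc (ZMod p) a))), (dc (ZMod p) a).natDegree = Dl →
      N p c a = Nat.card (Gc hOk)

end Pool.Agent.CvG
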