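import Pool.Agent.CvG.Res
import Pool.Agent.CvD.Bq

/-!
# Package CvG-OkG: a good polynomial defines a curve over every finite extension (page section 0)

`Gd d C p c` with `d ≤ C`: `p > d` is a prime, the coefficient of `y ^ d` (at `x ^ 0`) is `1`,
those with `i + j > d` vanish modulo
`p`, and the polynomial is irreducible over the algebraic closure. `f = bp (ZMod p) c`.

`td_bp`: `f ∈ Td (ZMod p) d`; `bp_monic`: `f` is monic of degree `d` (`CvD.bq_coeff`).
`ok_of`: for a field `κ` which is a finite extension of `ZMod p` (algebraic is enough): `fm κ f`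
is monic, of total degree `d`
(`Td` is stable under field extensions), irreducible: the algebraic closure `Ω = AlgebraicClosure
(ZMod p)` contains `κ`
(`IsAlgClosed.lift`, as `ZMod p`-algebras), `bp Ω c` is the image of `fm κ f`, and a monic
polynomial with irreducible image is
irreducible (`Polynomial.Monic.irreducible_of_irreducible_map`, for the ring homomorphism `κ[X] →
Ω[X]`).
`D = ds d f ≠ 0`: `ds_ne` over `ZMod p` (`f` is irreducible there as well, `(d : ZMod p) ≠ 0`
since `0 < d < p`);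
`dm κ D = ds d (fm κ f)` (`ds_map`), the combination: `ds_comb` over `κ`.
-/

set_option autoImplicit false

noncomputable section

namespace Pool.Agent.CvG

open Polynomial Pool.Agent.CvB Pool.Agent.CvD Pool.Agent.CvF

theorem td_bp {d C p : ℕ} {c : Fin (d + 1) → Fin (d + 1) → ℕ} (h : Gd d C p c) [Fact p.Prime] :
    bp (ZMod p) c ∈ Td (ZMod p) d := by
  intro i j hij
  unfold bp
  rw [bq_coeff]
  split_ifs with hh
  · exact (ZMod.natCast_eq_zero_iff _ _).2 (h.2.2.1 ⟨i, hh.1⟩ ⟨j, hh.2⟩ hij)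
  · rfl

theorem bp_monic {d C p : ℕ} {c : Fin (d + 1) → Fin (d + 1) → ℕ} (h : Gd d C p c)
    [Fact p.Prime] : (bp (ZMod p) c).Monic ∧ (bp (ZMod p) c).natDegree = d := by
  have hle : (bp (ZMod p) c).natDegree ≤ d := (bq_bd _).1
  have hco : (bp (ZMod p) c).coeff d = 1 := by
    ext i
    by_cases hi : i = 0
    · subst hi
      unfold bp
      rw [bq_coeff, dif_pos ⟨Nat.succ_pos d, Nat.lt_succ_self d⟩, coeff_one_zero]
      have h1 := (ZMod.natCast_eq_natCast_iff _ _ _).2 h.2.1
      rw [Nat.cast_one] at h1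
      exact h1
    · rw [td_bp h i d (by omega), coeff_one, if_neg hi]
  refine ⟨monic_of_natDegree_le_of_coeff_eq_one d hle hco, ?_⟩
  refine natDegree_eq_of_le_of_coeff_ne_zero hle ?_
  rw [hco]
  exact one_ne_zero

private theorem map_bp_OkG {K L : Type} [CommRing K] [CommRing L] (φ : K →+* L) {d : ℕ}
    (c : Fin (d + 1) → Fin (d + 1) → ℕ) : (bp K c).map (mapRingHom φ) = bp L c := by
  unfold bp
  rw [bq_map]
  congr 1
  funext i
  exact map_natCast φ _

theorem ok_of {d C p : ℕ} (hd : 1 ≤ d) (hC : d ≤ C) {c : Fin (d + 1) → Fin (d + 1) → ℕ}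
    (h : Gd d C p c) [Fact p.Prime] (κ : Type) [Field κ] [Algebra (ZMod p) κ] [Finite κ] :
    Ok (fm κ (bp (ZMod p) c)) d (dm κ (ds d (bp (ZMod p) c))) := by
  obtain ⟨hm, hdeg⟩ := bp_monic h
  obtain ⟨_, hirr⟩ := h.2.2.2
  have hf : fm κ (bp (ZMod p) c) = bp κ c := map_bp_OkG _ c
  have hmκ : (fm κ (bp (ZMod p) c)).Monic := hm.map _
  have hdκ : (fm κ (bp (ZMod p) c)).natDegree = d := by
    rw [fm, hm.natDegree_map, hdeg]
  have hirrZ : Irreducible (bp (ZMod p) c) := by
    refine hm.irreducible_of_irreducible_map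
      (mapRingHom (algebraMap (ZMod p) (AlgebraicClosure (ZMod p)))) _ ?_
    rw [map_bp_OkG]
    exact hirr
  have hirrκ : Irreducible (fm κ (bp (ZMod p) c)) := by
    have : Algebra.IsAlgebraic (ZMod p) κ := inferInstance
    let φ : κ →ₐ[ZMod p] AlgebraicClosure (ZMod p) := IsAlgClosed.lift
    refine hmκ.irreducible_of_irreducible_map (mapRingHom φ.toRingHom) _ ?_
    rw [hf, map_bp_OkG]
    exact hirr
  have hd0 : ((d : ℕ) : ZMod p) ≠ 0 := by
    intro h0
    have h1 := Nat.le_of_dvd (by omega) ((ZMod.natCast_eq_zero_iff _ _).1 h0)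
    have h2 := h.1
    omega
  refine ⟨⟨hd, hmκ, hdκ, ?_, hirrκ⟩, ?_, ?_⟩
  · intro i j hij
    have h1 := td_bp h i j hij
    rw [fm, coeff_map, coe_mapRingHom, coeff_map, h1, map_zero]
  · rw [dm, Ne, Polynomial.map_eq_zero]
    exact ds_ne hd hdeg hm hirrZ hd0
  · have h1 := ds_comb hd hdκ.le
    rw [ds_map] at h1
    exact h1

end Pool.Agent.CvG
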