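import Pool.Agent.CvG.ResP
import Pool.Agent.CvG.OkG
import Pool.Agent.CvD.Pair
import Pool.Agent.CvD.Bq

/-!
# Package CvG-Sm: the points with `D = 0` (page section 7.8)

`cn_split`: `p` a prime, `f = bp (ZMod p) c`, `D = ds d f`. `CN p c` is the number of the points
over `ZMod p` with `f = 0`, `D ≠ 0` plus the
number `nz p c` of the pairs `z ∈ [0, p) ^ 2` with `f = 0`, `D = 0` (`CN` counts the pairs in
`range p ×ˢ range p` with
`p ∣ ∑ ..`; `ZMod.natCast_eq_zero_iff`; the map `(x, y) ↦ ((x : ZMod p), (y : ZMod p))` is a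
bijection from `range p ×ˢ range p`).

`nz_le`: for `Gd d C p c`, `1 ≤ d ≤ C`: `nz p c ≤ 2 d ^ 3`: `D ≠ 0` (`ds_ne` in the proof of
`ok_of`) has at most `2 d ^ 2` roots (`ds_deg`), and for
every `a` the polynomial `f(a, y)` is monic of degree `d`, at most `d` roots (`bp_monic`).

`nz_def`: `min (2 d ^ 3) (nz p c)` is definable: `CvD.cnt_pairs` (or `PtC.cnt_small` with the
pairs coded as `x + p
y` (`x = z % p`, `y = z / p`), `B = p ^ 2`.
The condition `D(x) = 0` is `∑_i dsN p c i * x ^ i ≡ 0 [MOD p]` (sum over `i ≤ 2 d ^ 2`,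
`dsN_eq`, `ds_deg`: only under `Gd`; define `nz`
with this truncated sum).
-/

set_option autoImplicit false

noncomputable section

namespace Pool.Agent.CvG

open Finset Polynomial Pool.Agent.CvB Pool.Agent.CvD Pool.Agent.PRc Pool.Agent.Grz
open scoped Classical

/-- the number of the solutions with `D = 0` -/
def nz {d : ℕ} (p : ℕ) (c : Fin (d + 1) → Fin (d + 1) → ℕ) : ℕ :=
  #{z ∈ range p ×ˢ range p | p ∣ ∑ i, ∑ j, c i j * z.1 ^ (i : ℕ) * z.2 ^ (j : ℕ) ∧
    p ∣ ∑ i ∈ range (2 * d ^ 2 + 1), dsN p c i * z.1 ^ i}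

private theorem card2_Sm {p : ℕ} [Fact p.Prime] (P : ZMod p → ZMod p → Prop) :
    #{z ∈ range p ×ˢ range p | P (z.1 : ZMod p) (z.2 : ZMod p)} =
      Nat.card {z : ZMod p × ZMod p // P z.1 z.2} := by
  rw [Nat.card_eq_fintype_card, Fintype.card_subtype]
  refine Finset.card_bij (fun z _ => ((z.1 : ZMod p), (z.2 : ZMod p))) ?_ ?_ ?_
  · intro z hz
    rw [Finset.mem_filter] at hz ⊢
    exact ⟨Finset.mem_univ _, hz.2⟩
  · intro z hz w hw hzw
    rw [Finset.mem_filter, Finset.mem_product, Finset.mem_range, Finset.mem_range] at hz hw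
    have h2 := (ZMod.natCast_eq_natCast_iff _ _ _).1 (Prod.mk.inj hzw).1
    have h3 := (ZMod.natCast_eq_natCast_iff _ _ _).1 (Prod.mk.inj hzw).2
    exact Prod.ext (Nat.ModEq.eq_of_lt_of_lt h2 hz.1.1 hw.1.1)
      (Nat.ModEq.eq_of_lt_of_lt h3 hz.1.2 hw.1.2)
  · intro z hz
    rw [Finset.mem_filter] at hz
    refine ⟨(z.1.val, z.2.val), ?_, ?_⟩
    · rw [Finset.mem_filter, Finset.mem_product, Finset.mem_range, Finset.mem_range]
      refine ⟨⟨ZMod.val_lt _, ZMod.val_lt _⟩, ?_⟩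
      simpa using hz.2
    · simp

private theorem dvd1_Sm {p d : ℕ} [Fact p.Prime] (c : Fin (d + 1) → Fin (d + 1) → ℕ) (x y : ℕ) :
    p ∣ ∑ i, ∑ j, c i j * x ^ (i : ℕ) * y ^ (j : ℕ) ↔
      (bp (ZMod p) c).evalEval (x : ZMod p) (y : ZMod p) = 0 := by
  rw [← ZMod.natCast_eq_zero_iff]
  unfold bp
  rw [bq_eval]
  push_cast
  rfl

private theorem dvd2_Sm {d C p : ℕ} (hd : 1 ≤ d) {c : Fin (d + 1) → Fin (d + 1) → ℕ}
    (h : Gd d C p c) [Fact p.Prime] (x : ℕ) :
    p ∣ ∑ i ∈ range (2 * d ^ 2 + 1), dsN p c i * x ^ i ↔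
      (ds d (bp (ZMod p) c)).eval (x : ZMod p) = 0 := by
  rw [← ZMod.natCast_eq_zero_iff, Polynomial.eval_eq_sum_range' (n := 2 * d ^ 2 + 1)
    (Nat.lt_succ_of_le (ds_deg hd (td_bp h)))]
  push_cast
  simp only [dsN_eq]

theorem cn_split {d C p : ℕ} (hd : 1 ≤ d) {c : Fin (d + 1) → Fin (d + 1) → ℕ} (h : Gd d C p c)
    [Fact p.Prime] : CN p c = nz p c + Nat.card {z : ZMod p × ZMod p //
      (bp (ZMod p) c).evalEval z.1 z.2 = 0 ∧ (ds d (bp (ZMod p) c)).eval z.1 ≠ 0} := by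
  rw [← card2_Sm (fun x y => (bp (ZMod p) c).evalEval x y = 0 ∧
    (ds d (bp (ZMod p) c)).eval x ≠ 0)]
  unfold CN nz
  simp only [dvd1_Sm, dvd2_Sm hd h]
  rw [← Finset.card_filter_add_card_filter_not (s := Finset.filter _ (range p ×ˢ range p))
    (fun z : ℕ × ℕ => (ds d (bp (ZMod p) c)).eval (z.1 : ZMod p) = 0), Finset.filter_filter,
    Finset.filter_filter]
  congr!

theorem nz_le {d C p : ℕ} (hd : 1 ≤ d) (hC : d ≤ C) {c : Fin (d + 1) → Fin (d + 1) → ℕ}
    (h : Gd d C p c) : nz p c ≤ 2 * d ^ 3 := by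
  have hp : Fact p.Prime := ⟨h.2.2.2.1⟩
  have hD : ds d (bp (ZMod p) c) ≠ 0 := by
    intro h0
    refine (ok_of hd hC h (ZMod p)).ne ?_
    rw [h0]
    exact Polynomial.map_zero _
  obtain ⟨hm, hn⟩ := bp_monic h
  have h1 : nz p c = Nat.card {z : ZMod p × ZMod p //
      (bp (ZMod p) c).evalEval z.1 z.2 = 0 ∧ (ds d (bp (ZMod p) c)).eval z.1 = 0} := by
    rw [← card2_Sm (fun x y => (bp (ZMod p) c).evalEval x y = 0 ∧
      (ds d (bp (ZMod p) c)).eval x = 0)]
    unfold nz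
    simp only [dvd1_Sm, dvd2_Sm hd h]
    congr!
  rw [h1, Nat.card_eq_fintype_card, Fintype.card_subtype]
  have h2 : ∀ a : ZMod p, #((bp (ZMod p) c).map (evalRingHom a)).roots.toFinset ≤ d := by
    intro a
    refine (Multiset.toFinset_card_le _).trans ((card_roots' _).trans ?_)
    rw [hm.natDegree_map, hn]
  have h3 : #(ds d (bp (ZMod p) c)).roots.toFinset ≤ 2 * d ^ 2 :=
    (Multiset.toFinset_card_le _).trans ((card_roots' _).trans (ds_deg hd (td_bp h)))
  calc #{z : ZMod p × ZMod p | (bp (ZMod p) c).evalEval z.1 z.2 = 0 ∧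
        (ds d (bp (ZMod p) c)).eval z.1 = 0}
      ≤ #((ds d (bp (ZMod p) c)).roots.toFinset.sigma fun a =>
        ((bp (ZMod p) c).map (evalRingHom a)).roots.toFinset) := by
        refine Finset.card_le_card_of_injOn (fun z => ⟨z.1, z.2⟩) ?_ ?_
        · intro z hz
          rw [Finset.mem_coe, Finset.mem_filter] at hz
          rw [Finset.mem_coe, Finset.mem_sigma, Multiset.mem_toFinset, Multiset.mem_toFinset,
            mem_roots hD, mem_roots (hm.map _).ne_zero]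
          refine ⟨hz.2.2, ?_⟩
          rw [IsRoot.def, map_evalRingHom_eval]
          exact hz.2.1
        · intro z _ w _ hzw
          simp only [Sigma.mk.injEq, heq_eq_eq] at hzw
          exact Prod.ext hzw.1 hzw.2
    _ ≤ #(ds d (bp (ZMod p) c)).roots.toFinset * d := by
        rw [Finset.card_sigma]
        exact Finset.sum_le_card_nsmul _ _ _ fun a _ => h2 a
    _ ≤ 2 * d ^ 2 * d := Nat.mul_le_mul_right _ h3
    _ = 2 * d ^ 3 := by ring

theorem nz_def {d n : ℕ} {p : (Fin n → ℕ) → ℕ} {c : Fin (d + 1) → Fin (d + 1) → (Fin n → ℕ) → ℕ}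
    (hp : DFun n p) (hc : ∀ i j, DFun n (c i j)) :
    DFun n (fun v => min (2 * d ^ 3) (nz (p v) (fun i j => c i j v))) := by
  refine ECD.dfun_congr (cnt_pairs (A := fun x y v =>
    p v ∣ ∑ i, ∑ j, c i j v * x ^ (i : ℕ) * y ^ (j : ℕ) ∧
      p v ∣ ∑ i ∈ range (2 * d ^ 2 + 1), dsN (p v) (fun i j => c i j v) i * x ^ i)
      (2 * d ^ 3) hp ?_) fun v => by
    unfold nz
    congr!
  refine (ECD.delta_dvd hp.weak.weak (val_def (x := fun w : Fin (n + 2) → ℕ => w 0)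
    (y := fun w => w 1) (c := fun i j w => c i j (fun i => w i.succ.succ)) (DFun.proj 0)
    (DFun.proj 1) fun i j => (hc i j).weak.weak)).and
    (ECD.delta_dvd hp.weak.weak (PTr.DFun.finSum _ fun i =>
      ((dsN_def hp hc i).weak.weak).mul (PTr.DFun.powConst (DFun.proj 0) i)))

end Pool.Agent.CvG
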