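import Pool.Agent.CvG.Vec
import Pool.Agent.CvG.Sm

/-!
# Package CvG-End: the number of the points of a curve is definable

`curve_hyp`: `CurveHyp` with `C = d`. For `Gd d d p c` there is exactly one `Dl ≤ 2 d ^ 2` with
`Cs Dl p c` (`ds_deg`, `td_bp`). With the functions
`e_Dl` of `vec_def` and `cn_split`, `nz_le`: `CN p c = min (2 d ^ 3) (nz p c) + (p + e_Dl).toNat`
in the case `Cs Dl`. The function is
`∑_{Dl ≤ 2 d ^ 2} if Cs Dl then min (2 d ^ 3) (nz) + (p + e_Dl).toNat else 0` (`DFun.ite`,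
`cs_def`, sums; `ZF.toNat` or
similar).
-/

set_option autoImplicit false

noncomputable section

namespace Pool.Agent.CvG

open Polynomial Pool.Agent.Grz Pool.Agent.MTr Pool.Agent.LPC Pool.Agent.CvB Pool.Agent.CvD Pool.Agent.CvF

open scoped Classical in
private theorem val_End {d : ℕ} (hd : 1 ≤ d) {p : ℕ} {c : Fin (d + 1) → Fin (d + 1) → ℕ}
    (e : Fin (2 * d ^ 2 + 1) → ℤ)
    (h : ∀ Dl : Fin (2 * d ^ 2 + 1), Cs Dl p c → ∀ [Fact p.Prime],
        (Nat.card {z : ZMod p × ZMod p // (bp (ZMod p) c).evalEval z.1 z.2 = 0 ∧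
          (ds d (bp (ZMod p) c)).eval z.1 ≠ 0} : ℤ) = p + e Dl) :
    (if Gd d d p c then CN p c else 0) = ∑ Dl : Fin (2 * d ^ 2 + 1),
      if Cs (Dl : ℕ) p c then min (2 * d ^ 3) (nz p c) + ((p : ℤ) + e Dl).toNat else 0 := by
  by_cases hG : Gd d d p c
  · rw [if_pos hG]
    obtain ⟨hp, -⟩ := hG.2.2.2
    have := Fact.mk hp
    have hdeg : (ds d (bp (ZMod p) c)).natDegree < 2 * d ^ 2 + 1 :=
      Nat.lt_succ_of_le (ds_deg hd (td_bp hG))
    have hcs : ∀ Dl : Fin (2 * d ^ 2 + 1), Cs (Dl : ℕ) p c ↔ Dl = ⟨_, hdeg⟩ := by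
      intro Dl
      constructor
      · rintro ⟨-, hp', h1⟩
        exact Fin.ext h1.symm
      · rintro rfl
        exact ⟨hG, hp, rfl⟩
    rw [Finset.sum_eq_single (⟨_, hdeg⟩ : Fin (2 * d ^ 2 + 1))]
    · have h1 : Cs ((⟨_, hdeg⟩ : Fin (2 * d ^ 2 + 1)) : ℕ) p c := (hcs _).2 rfl
      rw [if_pos h1, ← h _ h1, Int.toNat_natCast, min_eq_right (nz_le hd le_rfl hG)]
      exact cn_split hd hG
    · intro Dl _ hne
      rw [if_neg fun h1 => hne ((hcs Dl).1 h1)]
    · intro hn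
      exact absurd (Finset.mem_univ _) hn
  · rw [if_neg hG]
    symm
    refine Finset.sum_eq_zero fun Dl _ => ?_
    rw [if_neg fun h1 => hG h1.1]

theorem curve_hyp (hG : GcHyp) : CurveHyp := by
  classical
  intro d hd
  refine ⟨d, ?_⟩
  intro n p c hp hc
  choose e he h using fun Dl : Fin (2 * d ^ 2 + 1) => vec_def hG hd (Dl : ℕ) hp hc
  have hT : ∀ Dl : Fin (2 * d ^ 2 + 1), DFun n (fun v =>
      if Cs (Dl : ℕ) (p v) (fun i j => c i j v) then
        min (2 * d ^ 3) (nz (p v) (fun i j => c i j v)) + ((p v : ℤ) + e Dl v).toNat else 0) :=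
    fun Dl => DFun.ite (cs_def (Dl : ℕ) hp hc)
      ((nz_def hp hc).add (ZF.toNat ((ZF.nat hp).add (he Dl)))) (DFun.const 0)
  have hS := Pool.Agent.PTr.DFun.finSum Finset.univ hT
  have hE : (fun v => if Gd d d (p v) (fun i j => c i j v) then CN (p v) (fun i j => c i j v)
      else 0) = fun v => ∑ Dl : Fin (2 * d ^ 2 + 1),
      if Cs (Dl : ℕ) (p v) (fun i j => c i j v) then
        min (2 * d ^ 3) (nz (p v) (fun i j => c i j v)) + ((p v : ℤ) + e Dl v).toNat else 0 := by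
    funext v
    exact val_End hd (fun Dl => e Dl v) fun Dl hcs => h Dl v hcs
  rw [hE]
  exact hS

end Pool.Agent.CvG
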