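import Pool.Agent.CvG.Defs
import Pool.Agent.CvD.Bq
import Pool.Agent.CvC.Gc

/-!
# The orders of the ray class groups are definable: the interface of `CvG` from `CvC.gc_def`
-/

set_option autoImplicit false

noncomputable section

namespace Pool.Agent.CvG

open Polynomial Pool.Agent.Grz Pool.Agent.CvD Pool.Agent.CvB Pool.Agent.CvF

private theorem uq_coeff_GcH {K : Type} [CommRing K] {s : ℕ} (x : Fin (s + 1) → K)
    (i : Fin (s + 1)) : (uq x).coeff i = x i := by
  unfold uq
  rw [finsetSum_coeff, Finset.sum_eq_single i]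
  · rw [coeff_C_mul, coeff_X_pow, if_pos rfl, mul_one]
  · intro b _ hb
    rw [coeff_C_mul, coeff_X_pow, if_neg fun h => hb (Fin.ext h.symm), mul_zero]
  · intro h
    exact absurd (Finset.mem_univ i) h

/-- The orders of the ray class groups are definable. -/
theorem gc_hyp : GcHyp := by
  intro d Dl s hd hs
  obtain ⟨H, hH, key⟩ := CvC.gc_def d Dl s hs
  refine ⟨fun p c a => H p c (fun i j => a (Sum.inl (i, j))) fun i => a (Sum.inr i), ?_, ?_⟩
  · intro n p c a hp hc ha
    exact hH hp hc (fun i j => ha _) fun i => ha _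
  · intro p _ h _ hm hd' c hc a hOk hDl
    refine key p h hm hd' c hc (fc (ZMod p) a) _ ?_ (dc (ZMod p) a) _ ?_ hDl hOk
    · intro i j
      unfold fc
      rw [bq_coeff, dif_pos ⟨i.2, j.2⟩]
    · intro i
      unfold dc
      rw [uq_coeff_GcH]

end Pool.Agent.CvG
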