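import Pool.Agent.CvD.AiQ

/-!
# Package CvG-Irr: definable choice of irreducible polynomials

`irr_exists`: a monic irreducible polynomial of degree `s ≥ 1` over `ZMod p` exists: the minimal
polynomial of a primitive element
of `GaloisField p s` over `ZMod p` (`Field.exists_primitive_element`, `GaloisField.finrank`,
`Field.primitive_element_iff_minpoly_natDegree_eq`,
`minpoly.irreducible`, `minpoly.monic`).

`irr_choice`: the number `z p` is the least `z < p ^ s` whose digits `z / p ^ l % p` (`l < s`)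
are the lower coefficients of an irreducible
polynomial `X ^ s + ∑ z_l X ^ l`, and `c l p = z p / p ^ l % p`. The relation is `Delta0` by
`CvD.irp_prq` and `prq_delta`
(`PRc/Ex.lean`), with the definable digits; the function `z` is definable by `DFun.ofGraph`
(bound `p ^ s`; graph: `z` has the
property and no smaller number has it, `Delta0.ballFun`; `z = 0` if `p` is not a prime), or by a
bounded minimum
operator.
-/

set_option autoImplicit false

noncomputable section

namespace Pool.Agent.CvG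

open Polynomial Pool.Agent.Grz Pool.Agent.PRc Pool.Agent.CvD

theorem irr_exists (p : ℕ) [Fact p.Prime] {s : ℕ} (hs : 0 < s) :
    ∃ h : (ZMod p)[X], h.Monic ∧ Irreducible h ∧ h.natDegree = s := by
  obtain ⟨α, hα⟩ := Field.exists_primitive_element (ZMod p) (GaloisField p s)
  have hi : IsIntegral (ZMod p) α := Algebra.IsIntegral.isIntegral α
  refine ⟨minpoly (ZMod p) α, minpoly.monic hi, minpoly.irreducible hi, ?_⟩
  have h1 := (Field.primitive_element_iff_minpoly_natDegree_eq (ZMod p) α).1 hα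
  rw [h1]
  exact GaloisField.finrank p hs.ne'

/-- the digits -/
private def dg_Irr (p l z : ℕ) : ℕ := z / (p ^ l - 1 + 1) % (p - 1 + 1)

private theorem dg_eq_Irr {p : ℕ} (hp : 0 < p) (l z : ℕ) : dg_Irr p l z = z / p ^ l % p := by
  unfold dg_Irr
  rw [Nat.sub_add_cancel (Nat.pow_pos hp), Nat.sub_add_cancel hp]

private theorem dg_def_Irr {n : ℕ} {p z : (Fin n → ℕ) → ℕ} (hp : DFun n p) (hz : DFun n z)
    (l : ℕ) : DFun n (fun v => dg_Irr (p v) l (z v)) :=
  (hz.div ((Pool.Agent.PTr.DFun.powConst hp l).sub (DFun.const 1))).mod (hp.sub (DFun.const 1))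

/-- the digits of `z` are the coefficients of an irreducible polynomial -/
private def Ok_Irr (s p z : ℕ) : Prop :=
  ∃ h : p.Prime, haveI := Fact.mk h; Irreducible (X ^ s + ∑ l : Fin s,
    C ((dg_Irr p l z : ℕ) : ZMod p) * X ^ (l : ℕ))

private theorem ok_def_Irr {n : ℕ} {p z : (Fin n → ℕ) → ℕ} (s : ℕ) (hp : DFun n p)
    (hz : DFun n z) : Delta0 n (fun v => Ok_Irr s (p v) (z v)) :=
  prq_delta (irp_prq s) (a := fun l v => dg_Irr (p v) l (z v)) hp
    fun l => dg_def_Irr hp hz l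

/-- the least number -/
private noncomputable def z_Irr (s p : ℕ) : ℕ := sInf {z | z ≤ p ^ s ∧ Ok_Irr s p z}

private theorem z_le_Irr (s p : ℕ) : z_Irr s p ≤ p ^ s := by
  unfold z_Irr
  rcases Set.eq_empty_or_nonempty {z | z ≤ p ^ s ∧ Ok_Irr s p z} with h | h
  · rw [h, Nat.sInf_empty]
    exact Nat.zero_le _
  · exact (Nat.sInf_mem h).1

private theorem z_iff_Irr (s p w : ℕ) : w = z_Irr s p ↔
    (w ≤ p ^ s ∧ Ok_Irr s p w ∧ ∀ x, x ≤ w → (x < w → ¬ Ok_Irr s p x)) ∨
      ((∀ x, x ≤ p ^ s → ¬ Ok_Irr s p x) ∧ w = 0) := by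
  unfold z_Irr
  rcases Set.eq_empty_or_nonempty {z | z ≤ p ^ s ∧ Ok_Irr s p z} with h | h
  · rw [h, Nat.sInf_empty]
    have h1 : ∀ x, x ≤ p ^ s → ¬ Ok_Irr s p x := fun x hx hox => by
      have h2 : x ∈ {z | z ≤ p ^ s ∧ Ok_Irr s p z} := ⟨hx, hox⟩
      rw [h] at h2
      exact h2
    constructor
    · exact fun hw => Or.inr ⟨h1, hw⟩
    · rintro (⟨hw, ho, -⟩ | ⟨-, hw⟩)
      · exact absurd ho (h1 w hw)
      · exact hw
  · obtain ⟨h1, h2⟩ := Nat.sInf_mem h
    have h3 : ∀ x, x < sInf {z | z ≤ p ^ s ∧ Ok_Irr s p z} → ¬ Ok_Irr s p x := fun x hx ho =>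
      Nat.notMem_of_lt_sInf hx ⟨hx.le.trans h1, ho⟩
    constructor
    · intro hw
      rw [hw]
      exact Or.inl ⟨h1, h2, fun x _ hx => h3 x hx⟩
    · rintro (⟨hw, ho, hx⟩ | ⟨hx, -⟩)
      · refine le_antisymm ?_ (Nat.sInf_le ⟨hw, ho⟩)
        by_contra hlt
        exact hx _ (by omega) (by omega) h2
      · exact absurd h2 (hx _ h1)

private theorem z_def_Irr (s : ℕ) : DFun 1 (fun v => z_Irr s (v 0)) := by
  have hb : DFun 1 (fun v => v 0 ^ s) := Pool.Agent.PTr.DFun.powConst (DFun.proj 0) s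
  refine DFun.ofGraph hb (fun v => z_le_Irr s (v 0)) ?_
  have w0 : DFun 2 (fun v => v 0) := DFun.proj 0
  have w1 : DFun 2 (fun v => v 1) := DFun.proj 1
  have b1 : DFun 2 (fun v => v 1 ^ s) := Pool.Agent.PTr.DFun.powConst w1 s
  have a1 : Delta0 2 (fun v => ∀ x, x ≤ v 0 → (x < v 0 → ¬ Ok_Irr s (v 1) x)) :=
    Delta0.ballFun (P := fun x v => x < v 0 → ¬ Ok_Irr s (v 1) x) w0
      ((Delta0.ltFun (DFun.proj 0) (DFun.proj 1)).imp
        (ok_def_Irr s (DFun.proj (n := 3) 2) (DFun.proj 0)).not)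
  have a2 : Delta0 2 (fun v => ∀ x, x ≤ v 1 ^ s → ¬ Ok_Irr s (v 1) x) :=
    Delta0.ballFun (P := fun x v => ¬ Ok_Irr s (v 1) x) b1
      (ok_def_Irr s (DFun.proj (n := 3) 2) (DFun.proj 0)).not
  refine (((Delta0.leFun w0 b1).and ((ok_def_Irr s w1 w0).and a1)).or
    (a2.and (Delta0.eqFun w0 (DFun.const 0)))).of_iff fun v => ?_
  exact z_iff_Irr s (v 1) (v 0)

private theorem digs_Irr {p : ℕ} (hp : 0 < p) (s : ℕ) : ∀ a : ℕ → ℕ, (∀ l, a l < p) →
    ∃ z, z < p ^ s ∧ ∀ l, l < s → z / p ^ l % p = a l := by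
  induction s with
  | zero => exact fun a _ => ⟨0, by simp, fun l hl => absurd hl (Nat.not_lt_zero l)⟩
  | succ s ih =>
    intro a ha
    obtain ⟨z, hz, h⟩ := ih (fun l => a (l + 1)) fun l => ha (l + 1)
    refine ⟨a 0 + p * z, ?_, ?_⟩
    · have h1 : a 0 + p * z < p * (z + 1) := by
        have := ha 0
        rw [mul_add, mul_one]
        omega
      refine h1.trans_le ?_
      rw [pow_succ, mul_comm (p ^ s)]
      exact Nat.mul_le_mul_left p hz
    · intro l hl
      rcases l with _ | l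
      · rw [pow_zero, Nat.div_one, Nat.add_mul_mod_self_left, Nat.mod_eq_of_lt (ha 0)]
      · rw [pow_succ, mul_comm (p ^ l), ← Nat.div_div_eq_div_mul, Nat.add_mul_div_left _ _ hp,
          Nat.div_eq_of_lt (ha 0), zero_add]
        exact h l (by omega)

theorem irr_choice {s : ℕ} (hs : 0 < s) : ∃ c : Fin s → ℕ → ℕ,
    (∀ l, DFun 1 (fun v => c l (v 0))) ∧ ∀ (p : ℕ) [Fact p.Prime],
      ∃ h : (ZMod p)[X], h.Monic ∧ Irreducible h ∧ h.natDegree = s ∧
        ∀ l : Fin s, (c l p : ZMod p) = h.coeff l := by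
  refine ⟨fun l p => dg_Irr p l (z_Irr s p), fun l =>
    dg_def_Irr (DFun.proj 0) (z_def_Irr s) l, fun p _ => ?_⟩
  have hp : p.Prime := Fact.out
  obtain ⟨f, hf, hi, hd⟩ := irr_exists p hs
  obtain ⟨z, hz, hzd⟩ := digs_Irr hp.pos s (fun l => (f.coeff l).val) fun l => ZMod.val_lt _
  have hok : Ok_Irr s p z := by
    refine ⟨hp, ?_⟩
    have e : (X ^ s + ∑ l : Fin s, C ((dg_Irr p l z : ℕ) : ZMod p) * X ^ (l : ℕ)) = f := by
      have e1 : ∀ l : Fin s, ((dg_Irr p l z : ℕ) : ZMod p) = f.coeff l := by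
        intro l
        rw [dg_eq_Irr hp.pos, hzd l l.2, ZMod.natCast_zmod_val]
      simp only [e1]
      subst hd
      conv_rhs => rw [hf.as_sum]
      rw [Finset.sum_range]
    rw [e]
    exact hi
  have hmem : z_Irr s p ∈ {z | z ≤ p ^ s ∧ Ok_Irr s p z} := Nat.sInf_mem ⟨z, hz.le, hok⟩
  obtain ⟨-, hp', h1⟩ := hmem
  refine ⟨_, monic_X_pow_add (degree_sum_fin_lt _), h1, ?_, fun l => ?_⟩
  · rw [natDegree_add_eq_left_of_degree_lt, natDegree_X_pow]
    rw [degree_X_pow]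
    exact degree_sum_fin_lt _
  · rw [coeff_add, coeff_X_pow, if_neg l.2.ne, zero_add, finsetSum_coeff,
      Finset.sum_eq_single l]
    · rw [coeff_C_mul, coeff_X_pow, if_pos rfl, mul_one]
    · intro b _ hb
      rw [coeff_C_mul, coeff_X_pow, if_neg fun h => hb (Fin.ext h.symm), mul_zero]
    · intro h
      exact absurd (Finset.mem_univ l) h

end Pool.Agent.CvG
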