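import Pool.Agent.CvG.Defs

/-!
# Package CvG-Res: the discriminant of `f` with respect to `y` (page section 0)

`ds d f = resultant f f' d (d - 1)` (`f' = derivative f`, outer variable).

`ds_comb`: `Polynomial.exists_mul_add_mul_eq_C_resultant` (`f.natDegree ≤ d`, `f'.natDegree ≤ d -
1`).
`ds_ne`: `f` monic, irreducible, `natDegree f = d`, `(d : K) ≠ 0`, `K` a field. Over the fraction
field `K(x)` `f` is
irreducible (Gauss: `Polynomial.Monic.irreducible_iff_irreducible_map_fraction_map`), `f' ≠ 0`
has smaller degree (its
coefficient at `y ^ (d - 1)` is `d ≠ 0`), so they are coprime and the resultant is not `0`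
(`Polynomial.resultant_eq_zero_iff` over the field or `resultant_ne_zero`; `resultant_map_map`).
`ds_deg`: `f ∈ Td K d` implies `natDegree (ds d f) ≤ 2 d ^ 2`: the resultant is the determinant
of a
`(2 d - 1) × (2 d - 1)` matrix whose entries have degree at most `d` (`Matrix.det_apply`,
`natDegree_sum_le_of_forall_le`,
`natDegree_prod_le`; or `Polynomial.natDegree_det...`).
`ds_map`: `resultant_map_map` and `derivative_map`.
-/

set_option autoImplicit false

noncomputable section

namespace Pool.Agent.CvG

open Polynomial Pool.Agent.CvB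

variable {K : Type} [Field K]

/-- the resultant of `f` and its derivative -/
def ds (d : ℕ) (f : K[X][X]) : K[X] := resultant f (derivative f) d (d - 1)

theorem ds_comb {d : ℕ} (hd : 1 ≤ d) {f : K[X][X]} (hf : f.natDegree ≤ d) :
    ∃ a b : K[X][X], C (ds d f) = a * f + b * derivative f := by
  have hg : (derivative f).natDegree ≤ d - 1 :=
    (natDegree_derivative_le f).trans (Nat.sub_le_sub_right hf 1)
  obtain ⟨p, q, _, _, h⟩ := exists_mul_add_mul_eq_C_resultant (m := d) (n := d - 1) f
    (derivative f) hf hg (Or.inl (by omega))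
  refine ⟨p, q, ?_⟩
  rw [ds, ← h, mul_comm f p, mul_comm (derivative f) q]

private theorem cast_Res (n : ℕ) : ((n : K[X]) + 1) = C ((n : K) + 1) := by
  rw [C_add, C_1, C_eq_natCast]

private theorem deg_der_Res {d : ℕ} (hd : 1 ≤ d) {f : K[X][X]} (hf : f.natDegree = d)
    (hm : f.Monic) (h : (d : K) ≠ 0) : (derivative f).natDegree = d - 1 := by
  refine le_antisymm ((natDegree_derivative_le f).trans (by rw [hf])) ?_
  apply le_natDegree_of_ne_zero
  rw [coeff_derivative]
  have e : d - 1 + 1 = d := by omega
  have h1 : f.coeff d = 1 := by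
    rw [← hf]
    exact hm
  have h2 : (((d - 1 : ℕ) : K[X]) + 1) = C (d : K) := by
    rw [cast_Res]
    congr 1
    rw [← Nat.cast_add_one, e]
  rw [e, h1, one_mul, h2]
  exact C_ne_zero.mpr h

theorem ds_ne {d : ℕ} (hd : 1 ≤ d) {f : K[X][X]} (hf : f.natDegree = d) (hm : f.Monic)
    (hi : Irreducible f) (h : (d : K) ≠ 0) : ds d f ≠ 0 := by
  have hg := deg_der_Res hd hf hm h
  have hinj : Function.Injective (algebraMap K[X] (FractionRing K[X])) :=
    IsFractionRing.injective K[X] (FractionRing K[X])
  have hfi : Irreducible (f.map (algebraMap K[X] (FractionRing K[X]))) :=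
    hm.irreducible_iff_irreducible_map_fraction_map.mp hi
  have hfd : (f.map (algebraMap K[X] (FractionRing K[X]))).natDegree = d := by
    rw [natDegree_map_eq_of_injective hinj, hf]
  have hgd : ((derivative f).map (algebraMap K[X] (FractionRing K[X]))).natDegree = d - 1 := by
    rw [natDegree_map_eq_of_injective hinj, hg]
  have hg0 : derivative f ≠ 0 := by
    intro h0
    have h1 : (derivative f).coeff (d - 1) = 0 := by rw [h0, coeff_zero]
    rw [coeff_derivative] at h1
    have e : d - 1 + 1 = d := by omega
    have h3 : f.coeff d = 1 := by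
      rw [← hf]
      exact hm
    have h2 : (((d - 1 : ℕ) : K[X]) + 1) = C (d : K) := by
      rw [cast_Res]
      congr 1
      rw [← Nat.cast_add_one, e]
    rw [e, h3, one_mul, h2] at h1
    exact C_ne_zero.mpr h h1
  have hg0' : (derivative f).map (algebraMap K[X] (FractionRing K[X])) ≠ 0 :=
    (Polynomial.map_ne_zero_iff hinj).mpr hg0
  have hcop : IsCoprime (f.map (algebraMap K[X] (FractionRing K[X])))
      ((derivative f).map (algebraMap K[X] (FractionRing K[X]))) := by
    rw [hfi.coprime_iff_not_dvd]
    exact Polynomial.not_dvd_of_natDegree_lt hg0' (by rw [hfd, hgd]; omega)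
  have hne := resultant_ne_zero _ _ hcop
  rw [hfd, hgd, resultant_map_map] at hne
  intro h0
  apply hne
  rw [← ds, h0, map_zero]

private theorem det_deg_Res {N e : ℕ} (M : Matrix (Fin N) (Fin N) K[X])
    (h : ∀ i j, (M i j).natDegree ≤ e) : M.det.natDegree ≤ N * e := by
  rw [Matrix.det_apply]
  apply natDegree_sum_le_of_forall_le
  intro σ _
  have h1 : (∏ i, M (σ i) i).natDegree ≤ N * e := by
    refine (natDegree_prod_le _ _).trans ?_
    refine (Finset.sum_le_card_nsmul _ _ e fun i _ => h _ _).trans ?_
    rw [Finset.card_univ, Fintype.card_fin, smul_eq_mul]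
  rcases Int.units_eq_one_or (Equiv.Perm.sign σ) with h2 | h2
  · rw [h2, one_smul]
    exact h1
  · rw [h2, Units.neg_smul, one_smul, natDegree_neg]
    exact h1

private theorem co_Res {d : ℕ} {f : K[X][X]} (hf : f ∈ Td K d) (j : ℕ) :
    (f.coeff j).natDegree ≤ d := by
  rw [natDegree_le_iff_coeff_eq_zero]
  intro i hi
  exact hf i j (by omega)

theorem ds_deg {d : ℕ} (hd : 1 ≤ d) {f : K[X][X]} (hf : f ∈ Td K d) :
    (ds d f).natDegree ≤ 2 * d ^ 2 := by
  have h1 : (ds d f).natDegree ≤ (d + (d - 1)) * d := by
    rw [ds, resultant]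
    apply det_deg_Res
    intro i j
    have hder : ∀ t, ((derivative f).coeff t).natDegree ≤ d := by
      intro t
      rw [coeff_derivative, cast_Res]
      exact (natDegree_mul_C_le _ _).trans (co_Res hf _)
    induction j using Fin.addCases with
    | left j =>
      simp only [sylvester, Matrix.of_apply, Fin.addCases_left]
      split_ifs
      · exact hder _
      · rw [natDegree_zero]
        exact Nat.zero_le _
    | right j =>
      simp only [sylvester, Matrix.of_apply, Fin.addCases_right]
      split_ifs
      · exact co_Res hf _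
      · rw [natDegree_zero]
        exact Nat.zero_le _
  refine h1.trans ?_
  have h2 : d + (d - 1) ≤ 2 * d := by omega
  calc (d + (d - 1)) * d ≤ 2 * d * d := Nat.mul_le_mul_right d h2
    _ = 2 * d ^ 2 := by ring

theorem ds_map {L : Type} [Field L] (φ : K →+* L) (d : ℕ) (f : K[X][X]) :
    ds d (f.map (mapRingHom φ)) = (ds d f).map φ := by
  rw [ds, derivative_map, resultant_map_map, coe_mapRingHom, ds]

end Pool.Agent.CvG
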