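import Pool.Agent.CvG.Res
import Pool.Agent.CvD.Bq
import Pool.Agent.PRc.Poly
import Pool.Agent.PRc.Delta

/-!
# Package CvG-ResP: the coefficients of the discriminant are piecewise rational

`ds_pr`: every coefficient of `ds d (bq x)` is `PRF`. `ds` is a determinant (`resultant`,
`sylvester`, `Matrix.det_apply`) whose
entries are `0` or the polynomials `(bq x).coeff j`, `(derivative (bq x)).coeff j = (bq x).coeff
(j + 1) * (j + 1)`; these are
`PRP` (`CvD.bq_coeff`, `PRP.ofFn` or directly); `PRP` is closed under sums and products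
(`PRc/Poly.lean`).

`dsN p c i`: the `i`-th coefficient as a natural number `< p` (`zv`, `PRc/Delta.lean`);
`dsN_def`: definable (`prf_dfun'`).
-/

set_option autoImplicit false

noncomputable section

namespace Pool.Agent.CvG

open Polynomial Pool.Agent.CvB Pool.Agent.CvD Pool.Agent.PRc Pool.Agent.Grz

private theorem prod_ResP {ι α : Type} (s : Finset α) {F : α → FP ι} (hF : ∀ a ∈ s, PRP (F a)) :
    PRP (fun k _ x => ∏ a ∈ s, F a k x) := by
  classical
  induction s using Finset.induction_on with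
  | empty => exact PRP.one.congr fun k _ x => by rw [Finset.prod_empty]
  | insert a s ha ih =>
    exact ((hF a (Finset.mem_insert_self a s)).mul
      (ih fun b hb => hF b (Finset.mem_insert_of_mem hb))).congr
      fun k _ x => by rw [Finset.prod_insert ha]

private theorem det_ResP {ι : Type} {N : ℕ} {M : Fin N → Fin N → FP ι}
    (hM : ∀ i j, PRP (M i j)) :
    PRP (fun k _ x => (Matrix.of fun i j => M i j k x : Matrix (Fin N) (Fin N) k[X]).det) := by
  refine (PRP.sum (Finset.univ : Finset (Equiv.Perm (Fin N)))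
    (F := fun σ k _ x => C (((Equiv.Perm.sign σ : ℤ) : k)) * ∏ i : Fin N, M (σ i) i k x)
    fun σ _ => (PRP.C (PRF.int _)).mul (prod_ResP Finset.univ fun i _ => hM _ _)).congr
    fun k _ x => ?_
  rw [Matrix.det_apply']
  refine Finset.sum_congr rfl fun σ _ => ?_
  congr 1

private theorem coe_ResP (d j : ℕ) : PRP (ι := Fin (d + 1) × Fin (d + 1))
    (fun _ _ x => (bq x).coeff j) := by
  refine ⟨⟨d, fun k _ x => (bq_bd x).2 j⟩, fun i => ?_⟩
  by_cases h : i < d + 1 ∧ j < d + 1
  · refine (PRF.var (⟨i, h.1⟩, ⟨j, h.2⟩)).congr fun k _ x => ?_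
    rw [bq_coeff, dif_pos h]
  · refine PRF.zero.congr fun k _ x => ?_
    rw [bq_coeff, dif_neg h]

private theorem der_ResP (d j : ℕ) : PRP (ι := Fin (d + 1) × Fin (d + 1))
    (fun _ _ x => (derivative (bq x)).coeff j) := by
  refine ((coe_ResP d (j + 1)).mul (PRP.C (PRF.nat (j + 1)))).congr fun k _ x => ?_
  rw [coeff_derivative]
  congr 1
  rw [Nat.cast_add, Nat.cast_one, C_add, C_1, map_natCast]

theorem ds_pr (d i : ℕ) : PRF (ι := Fin (d + 1) × Fin (d + 1))
    (fun _ _ x => (ds d (bq x)).coeff i) := by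
  classical
  have h : PRP (ι := Fin (d + 1) × Fin (d + 1)) (fun _ _ x => ds d (bq x)) := by
    refine (det_ResP (N := d + (d - 1)) (M := fun i j k _ x => j.addCases
      (fun j₁ => if (i : ℕ) ∈ Set.Icc (j₁ : ℕ) (j₁ + (d - 1)) then
        (derivative (bq x)).coeff (i - j₁) else 0)
      (fun j₁ => if (i : ℕ) ∈ Set.Icc (j₁ : ℕ) (j₁ + d) then (bq x).coeff (i - j₁) else 0))
      fun i j => ?_).congr fun k _ x => ?_
    · induction j using Fin.addCases with
      | left j =>
        simp only [Fin.addCases_left]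
        by_cases h : (i : ℕ) ∈ Set.Icc (j : ℕ) (j + (d - 1))
        · simp only [if_pos h]
          exact der_ResP d _
        · simp only [if_neg h]
          exact PRP.zero
      | right j =>
        simp only [Fin.addCases_right]
        by_cases h : (i : ℕ) ∈ Set.Icc (j : ℕ) (j + d)
        · simp only [if_pos h]
          exact coe_ResP d _
        · simp only [if_neg h]
          exact PRP.zero
    · rfl
  exact h.2 i

/-- the `i`-th coefficient of the discriminant modulo `p` -/
def dsN {d : ℕ} (p : ℕ) (c : Fin (d + 1) → Fin (d + 1) → ℕ) (i : ℕ) : ℕ :=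
  zv (fun _ _ x => (ds d (bq x)).coeff i) p (fun j : Fin (d + 1) × Fin (d + 1) => c j.1 j.2)

theorem dsN_def {d n : ℕ} {p : (Fin n → ℕ) → ℕ} {c : Fin (d + 1) → Fin (d + 1) → (Fin n → ℕ) → ℕ}
    (hp : DFun n p) (hc : ∀ i j, DFun n (c i j)) (i : ℕ) :
    DFun n (fun v => dsN (p v) (fun i j => c i j v) i) := by
  exact prf_dfun' (ds_pr d i) hp
    (a := fun (j : Fin (d + 1) × Fin (d + 1)) v => c j.1 j.2 v) fun j => hc j.1 j.2

theorem dsN_eq {d : ℕ} (p : ℕ) [Fact p.Prime] (c : Fin (d + 1) → Fin (d + 1) → ℕ) (i : ℕ) :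
    (dsN p c i : ZMod p) = (ds d (bp (ZMod p) c)).coeff i := by
  have hp : p.Prime := Fact.out
  unfold dsN zv
  rw [dif_pos hp, ZMod.natCast_zmod_val]
  rfl

end Pool.Agent.CvG
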