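import Pool.Agent.CvG.ResP
import Pool.Agent.CvG.OkG
import Pool.Agent.CvG.Irr
import Pool.Agent.Unq.Def

/-!
# Package CvG-Vec: the coefficients of the zeta function are definable (page section 7.8)

Fix `d ≥ 1` and `Dl`; `b = nn d Dl + d`. `Cs`: the case `Gd d d p c` and `natDegree D = Dl`, `D =
ds d (bp (ZMod p) c)`.

`cf`: `fc (ZMod p) a = bp (ZMod p) c` and `dc (ZMod p) a = D` for the vector `a = av p c` with
the entries `c i j` and `dsN p c i`
(`natDegree D ≤ Dl`, `dsN_eq`).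

`exists_vec`: in the case `Cs` there is `e : Fin b → ℤ` with the properties of `CvF.final`, for
`κ s = AdjoinRoot h_s`, `h_s` the polynomial of
`irr_choice` for `s ≥ 1` (`κ 0` anything, for example `ZMod p`; `Nat.card (AdjoinRoot h_s) = p ^
s`; `ok_of`): with the function `N_s` of
`GcHyp` (for `d`, `Dl`, `s`) and `c_s = irr_choice`: `p ^ (s ss) rs e p s = N_s p c_s a * p ^ (s
(b + 1))`.

`vec`: the vector `e` chosen in the case `Cs`, and `0` otherwise.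

`vec_def`: every `vec i` is `ZF`, by `Unq.coef_def` with `q v = p v` if `p v` is a prime and `1`
otherwise, `B v = 2 ^ b * q v ^ b`,
`e k v = q ^ (k ss)`, `f k v = N_k * q ^ (k (b + 1))` in the case `Cs`, and `e k v = 1`, `f k v =
q ^ (k b)` otherwise (`Unq.pol 0 = X ^ b`, all
roots are `0`; `Unq.rs_eq`). `Cs` is `Delta0`: `CvD.ai_def` (`CvD/AiQ.lean`), congruences, and
`natDegree D = Dl` iff
`dsN p c Dl ≠ 0` and `dsN p c i = 0` for `Dl < i ≤ 2 d ^ 2` (or `Dl = 0`; `D ≠ 0` under `Gd`;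
`ds_deg`).
-/

set_option autoImplicit false

noncomputable section

namespace Pool.Agent.CvG

open Polynomial Pool.Agent.Grz Pool.Agent.MTr Pool.Agent.LPC Pool.Agent.CvB Pool.Agent.CvD Pool.Agent.CvF
open scoped Classical

/-- the case of the good polynomials with discriminant of degree `Dl` -/
def Cs {d : ℕ} (Dl p : ℕ) (c : Fin (d + 1) → Fin (d + 1) → ℕ) : Prop :=
  Gd d d p c ∧ ∃ h : p.Prime, haveI := Fact.mk h; (ds d (bp (ZMod p) c)).natDegree = Dl

/-- the natural degree in terms of the coefficients -/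
private theorem deg_iff_Vec {K : Type} [Field K] {P : K[X]} {B Dl : ℕ} (hB : P.natDegree ≤ B) :
    P.natDegree = Dl ↔ (∀ i ∈ Finset.Ioc Dl B, P.coeff i = 0) ∧ (Dl = 0 ∨ P.coeff Dl ≠ 0) := by
  constructor
  · rintro rfl
    refine ⟨fun i hi => coeff_eq_zero_of_natDegree_lt (Finset.mem_Ioc.1 hi).1, ?_⟩
    by_cases h : P.natDegree = 0
    · exact Or.inl h
    · right
      intro h0
      apply h
      have h1 : P.leadingCoeff = 0 := h0
      rw [leadingCoeff_eq_zero.1 h1, natDegree_zero]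
  · rintro ⟨h1, h2⟩
    refine le_antisymm (natDegree_le_iff_coeff_eq_zero.2 fun i hi => ?_) ?_
    · by_cases hiB : i ≤ B
      · exact h1 i (Finset.mem_Ioc.2 ⟨hi, hiB⟩)
      · exact coeff_eq_zero_of_natDegree_lt (by omega)
    · rcases h2 with h2 | h2
      · omega
      · exact le_natDegree_of_ne_zero h2

private theorem deg_le_Vec {d p : ℕ} {c : Fin (d + 1) → Fin (d + 1) → ℕ} (h : Gd d d p c)
    [Fact p.Prime] : (ds d (bp (ZMod p) c)).natDegree ≤ 2 * d ^ 2 := by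
  rcases Nat.eq_zero_or_pos d with rfl | hd
  · have e : ds 0 (bp (ZMod p) c) = 1 := by
      have : IsEmpty (Fin (0 + (0 - 1))) := inferInstanceAs (IsEmpty (Fin 0))
      unfold ds resultant
      exact Matrix.det_isEmpty
    rw [e, natDegree_one]
    exact Nat.zero_le _
  · exact ds_deg hd (td_bp h)

private theorem coeff_iff_Vec {d p : ℕ} (c : Fin (d + 1) → Fin (d + 1) → ℕ) [Fact p.Prime]
    (i : ℕ) : (ds d (bp (ZMod p) c)).coeff i = 0 ↔ dsN p c i % p = 0 := by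
  rw [← dsN_eq p c i, ZMod.natCast_eq_zero_iff, Nat.dvd_iff_mod_eq_zero]

private theorem gd_def_Vec {d n : ℕ} {p : (Fin n → ℕ) → ℕ}
    {c : Fin (d + 1) → Fin (d + 1) → (Fin n → ℕ) → ℕ} (hp : DFun n p)
    (hc : ∀ i j, DFun n (c i j)) : Delta0 n (fun v => Gd d d (p v) (fun i j => c i j v)) := by
  have h1 : Delta0 n (fun v => d < p v) := Delta0.ltFun (DFun.const d) hp
  have h2 : Delta0 n (fun v => c 0 (Fin.last d) v ≡ 1 [MOD p v]) :=
    Delta0.eqFun (PTr.DFun.modAny (hc _ _) hp) (PTr.DFun.modAny (DFun.const 1) hp)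
  have h3 : Delta0 n (fun v => ∀ i j : Fin (d + 1), d < (i : ℕ) + j → p v ∣ c i j v) := by
    refine PTr.Delta0.allOf fun i => PTr.Delta0.allOf fun j => ?_
    by_cases hij : d < (i : ℕ) + j
    · refine (Delta0.eqFun (PTr.DFun.modAny (hc i j) hp) (DFun.const 0)).of_iff fun v => ?_
      rw [← Nat.dvd_iff_mod_eq_zero]
      exact ⟨fun h => h hij, fun h _ => h⟩
    · exact (Delta0.eqFun (DFun.const 0) (DFun.const 0)).of_iff fun v =>
        ⟨fun _ => rfl, fun _ h => absurd h hij⟩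
  exact h1.and (h2.and (h3.and (ai_def hp hc)))

theorem cs_def {d n : ℕ} (Dl : ℕ) {p : (Fin n → ℕ) → ℕ}
    {c : Fin (d + 1) → Fin (d + 1) → (Fin n → ℕ) → ℕ} (hp : DFun n p)
    (hc : ∀ i j, DFun n (c i j)) : Delta0 n (fun v => Cs Dl (p v) (fun i j => c i j v)) := by
  have hN : ∀ i, Delta0 n (fun v => dsN (p v) (fun i j => c i j v) i % p v = 0) := fun i =>
    Delta0.eqFun (PTr.DFun.modAny (dsN_def hp hc i) hp) (DFun.const 0)
  have h1 : Delta0 n (fun v => ∀ i ∈ Finset.Ioc Dl (2 * d ^ 2),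
      dsN (p v) (fun i j => c i j v) i % p v = 0) := PTr.Delta0.finAll _ hN
  have h2 : Delta0 n (fun v => Dl = 0 ∨ ¬ dsN (p v) (fun i j => c i j v) Dl % p v = 0) :=
    Delta0.or (Delta0.eqFun (DFun.const Dl) (DFun.const 0)) (hN Dl).not
  refine ((gd_def_Vec hp hc).and (h1.and h2)).of_iff fun v => ?_
  unfold Cs
  refine and_congr_right fun hG => ?_
  obtain ⟨hpr, -⟩ := hG.2.2.2
  have := Fact.mk hpr
  have h3 := deg_iff_Vec (Dl := Dl) (deg_le_Vec hG)
  simp only [coeff_iff_Vec] at h3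
  rw [Ne, coeff_iff_Vec] at h3
  constructor
  · rintro ⟨_, h4⟩
    exact h3.1 h4
  · intro h4
    exact ⟨hpr, h3.2 h4⟩

/-- the coefficients of `f` and `D` -/
private def av_Vec {d : ℕ} (Dl p : ℕ) (c : Fin (d + 1) → Fin (d + 1) → ℕ) : Ct d Dl → ℕ :=
  Sum.elim (fun i => c i.1 i.2) fun i => dsN p c i

private theorem dc_Vec {d Dl p : ℕ} (c : Fin (d + 1) → Fin (d + 1) → ℕ) [Fact p.Prime]
    (h : (ds d (bp (ZMod p) c)).natDegree = Dl) :
    dc (ZMod p) (av_Vec Dl p c) = ds d (bp (ZMod p) c) := by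
  unfold dc uq av_Vec
  simp only [Sum.elim_inr, dsN_eq]
  subst h
  rw [Fin.sum_univ_eq_sum_range
    (fun i => C ((ds d (bp (ZMod p) c)).coeff i) * X ^ i : ℕ → (ZMod p)[X])]
  exact (as_sum_range_C_mul_X_pow _).symm

private theorem card_Vec {p : ℕ} [Fact p.Prime] {h : (ZMod p)[X]} (hm : h.Monic) :
    Finite (AdjoinRoot h) ∧ Nat.card (AdjoinRoot h) = p ^ h.natDegree := by
  have h1 : Module.Finite (ZMod p) (AdjoinRoot h) := hm.finite_adjoinRoot
  have h2 : Finite (AdjoinRoot h) := Module.finite_of_finite (ZMod p)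
  refine ⟨h2, ?_⟩
  rw [Module.natCard_eq_pow_finrank (K := ZMod p), Nat.card_zmod,
    (AdjoinRoot.powerBasis' hm).finrank, AdjoinRoot.powerBasis'_dim]

private theorem exists_vec_Vec {d Dl p : ℕ} (hd : 1 ≤ d) [Fact p.Prime]
    {c : Fin (d + 1) → Fin (d + 1) → ℕ} (hG : Gd d d p c)
    (hD : (ds d (bp (ZMod p) c)).natDegree = Dl) (cs : ∀ s, Fin s → ℕ)
    (hcs : ∀ s, 0 < s → ∃ h : (ZMod p)[X], h.Monic ∧ Irreducible h ∧ h.natDegree = s ∧
      ∀ l : Fin s, (cs s l : ZMod p) = h.coeff l)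
    (N : ℕ → ℕ) (hN : ∀ s, 0 < s → ∀ (h : (ZMod p)[X]) [Fact (Irreducible h)], h.Monic →
      h.natDegree = s → (∀ l : Fin s, (cs s l : ZMod p) = h.coeff l) →
      ∀ (hOk : Ok (fm (AdjoinRoot h) (fc (ZMod p) (av_Vec Dl p c))) d
        (dm (AdjoinRoot h) (dc (ZMod p) (av_Vec Dl p c)))),
      (dc (ZMod p) (av_Vec Dl p c)).natDegree = Dl → N s = Nat.card (Gc hOk)) :
    ∃ e : Fin (nn d Dl + d) → ℤ,
      (∀ γ : ℂ, ((Unq.pol e).map (Int.castRingHom ℂ)).IsRoot γ → ‖γ‖ < p) ∧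
      (∀ m, 1 ≤ m → m ≤ 2 ^ (nn d Dl + d + 1) →
        (p : ℤ) ^ (m * ss d Dl) * Unq.rs e p m = N m * (p : ℤ) ^ (m * (nn d Dl + d + 1))) ∧
      (∀ i, (e i).natAbs ≤ 2 ^ (nn d Dl + d) * p ^ (nn d Dl + d)) ∧
      ∀ i : Fin (nn d Dl + d), (i : ℕ) = 0 →
        (Nat.card {z : ZMod p × ZMod p // (bp (ZMod p) c).evalEval z.1 z.2 = 0 ∧
          (ds d (bp (ZMod p) c)).eval z.1 ≠ 0} : ℤ) = p + e i := by
  subst hD
  have hex : ∀ s : ℕ, ∃ h : (ZMod p)[X], h.Monic ∧ Irreducible h ∧ (0 < s → h.natDegree = s ∧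
      ∀ l : Fin s, (cs s l : ZMod p) = h.coeff l) := by
    intro s
    rcases Nat.eq_zero_or_pos s with rfl | hs
    · exact ⟨X, monic_X, irreducible_X, fun h => absurd h (lt_irrefl 0)⟩
    · obtain ⟨h, h1, h2, h3⟩ := hcs s hs
      exact ⟨h, h1, h2, fun _ => h3⟩
  choose h h1 h2 h3 using hex
  have hF : ∀ s, Fact (Irreducible (h s)) := fun s => ⟨h2 s⟩
  have hfin : ∀ s, Finite (AdjoinRoot (h s)) := fun s => (card_Vec (h1 s)).1
  have hok : ∀ s, Ok (fm (AdjoinRoot (h s)) (bp (ZMod p) c)) d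
      (dm (AdjoinRoot (h s)) (ds d (bp (ZMod p) c))) := fun s =>
    ok_of hd le_rfl hG (AdjoinRoot (h s))
  have hdc := dc_Vec (p := p) c rfl
  have hfc : fc (ZMod p) (av_Vec (ds d (bp (ZMod p) c)).natDegree p c) = bp (ZMod p) c := rfl
  obtain ⟨e, e1, e2, e3, e4⟩ := final hd (fun m => AdjoinRoot (h m))
    (fun m hm => by rw [(card_Vec (h1 m)).2, (h3 m hm).1]) (fun m _ _ => hok m)
  refine ⟨e, e1, fun m hm hmK => ?_, e3, e4⟩
  rw [e2 m hm hmK (hok m)]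
  congr 2
  have h4 := h3 m hm
  have h5 : ∀ (f : (ZMod p)[X][X]) (D : (ZMod p)[X]), f = bp (ZMod p) c →
      D = ds d (bp (ZMod p) c) → ∀ hOk : Ok (fm (AdjoinRoot (h m)) f) d (dm (AdjoinRoot (h m)) D),
        Nat.card (Gc (hok m)) = Nat.card (Gc hOk) := by
    rintro f D rfl rfl hOk
    rfl
  have h6 : Ok (fm (AdjoinRoot (h m)) (fc (ZMod p)
      (av_Vec (ds d (bp (ZMod p) c)).natDegree p c))) d (dm (AdjoinRoot (h m)) (dc (ZMod p)
      (av_Vec (ds d (bp (ZMod p) c)).natDegree p c))) := by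
    rw [hfc, hdc]
    exact hok m
  rw [h5 _ _ hfc hdc h6]
  exact (hN m hm (h m) (h1 m) h4.1 h4.2 h6 (by rw [hdc])).symm

/-- the product over the roots for `X ^ b` -/
private theorem rs_zero_Vec (b k : ℕ) (hk : 1 ≤ k) : Unq.rs (0 : Fin b → ℤ) 1 k = 1 := by
  have h0 : (Unq.pol (0 : Fin b → ℤ)).map (Int.castRingHom ℂ) = ∏ _i : Fin b, (X - C 0) := by
    unfold Unq.pol
    simp
  have h1 := Unq.rs_eq (0 : Fin b → ℤ) 1 k (fun _ => 0) h0
  have h2 : ∏ _i : Fin b, (((1 : ℤ) : ℂ) ^ k - 0 ^ k) = 1 := by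
    rw [zero_pow (by omega)]
    simp
  rw [h2] at h1
  exact_mod_cast h1

/-- **The coefficients of the zeta functions are definable.** -/
theorem vec_def (hG : GcHyp) {d n : ℕ} (hd : 1 ≤ d) (Dl : ℕ) {p : (Fin n → ℕ) → ℕ}
    {c : Fin (d + 1) → Fin (d + 1) → (Fin n → ℕ) → ℕ} (hp : DFun n p)
    (hc : ∀ i j, DFun n (c i j)) : ∃ e : (Fin n → ℕ) → ℤ, ZF n e ∧
      ∀ v, Cs Dl (p v) (fun i j => c i j v) → ∀ [Fact (p v).Prime],
        (Nat.card {z : ZMod (p v) × ZMod (p v) //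
          (bp (ZMod (p v)) fun i j => c i j v).evalEval z.1 z.2 = 0 ∧
          (ds d (bp (ZMod (p v)) fun i j => c i j v)).eval z.1 ≠ 0} : ℤ) = p v + e v := by
  set b : ℕ := nn d Dl + d with hb
  have hb0 : 0 < b := by omega
  -- the group orders
  have hc1 : ∀ s : ℕ, ∃ cs : Fin s → ℕ → ℕ, 0 < s → (∀ l, DFun 1 (fun v => cs l (v 0))) ∧
      ∀ (p : ℕ) [Fact p.Prime], ∃ h : (ZMod p)[X], h.Monic ∧ Irreducible h ∧
        h.natDegree = s ∧ ∀ l : Fin s, (cs l p : ZMod p) = h.coeff l := by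
    intro s
    rcases Nat.eq_zero_or_pos s with rfl | hs
    · exact ⟨fun _ _ => 0, fun h => absurd h (lt_irrefl 0)⟩
    · obtain ⟨cs, h1, h2⟩ := irr_choice hs
      exact ⟨cs, fun _ => ⟨h1, h2⟩⟩
  choose cs hcs using hc1
  have hN1 : ∀ s : ℕ, ∃ N : ℕ → (Fin s → ℕ) → (Ct d Dl → ℕ) → ℕ, 0 < s →
      (∀ {n : ℕ} {p : (Fin n → ℕ) → ℕ} {c : Fin s → (Fin n → ℕ) → ℕ}
        {a : Ct d Dl → (Fin n → ℕ) → ℕ}, DFun n p → (∀ l, DFun n (c l)) → (∀ i, DFun n (a i)) →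
        DFun n (fun v => N (p v) (fun l => c l v) fun i => a i v)) ∧
      ∀ (p : ℕ) [Fact p.Prime] (h : (ZMod p)[X]) [Fact (Irreducible h)], h.Monic →
        h.natDegree = s → ∀ (c : Fin s → ℕ), (∀ l : Fin s, (c l : ZMod p) = h.coeff l) →
        ∀ (a : Ct d Dl → ℕ) (hOk : Ok (fm (AdjoinRoot h) (fc (ZMod p) a)) d
          (dm (AdjoinRoot h) (dc (ZMod p) a))), (dc (ZMod p) a).natDegree = Dl →
        N p c a = Nat.card (Gc hOk) := by
    intro s
    rcases Nat.eq_zero_or_pos s with rfl | hs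
    · exact ⟨fun _ _ _ => 0, fun h => absurd h (lt_irrefl 0)⟩
    · obtain ⟨N, h1, h2⟩ := hG d Dl s hd hs
      exact ⟨N, fun _ => ⟨h1, h2⟩⟩
  choose N hN using hN1
  set Nv : ℕ → (Fin n → ℕ) → ℕ := fun k v =>
    N k (p v) (fun l => cs k l (p v)) (av_Vec Dl (p v) fun i j => c i j v) with hNv
  have hNvd : ∀ k, 1 ≤ k → DFun n (Nv k) := by
    intro k hk
    obtain ⟨h1, -⟩ := hN k hk
    refine @h1 n p (fun l v => cs k l (p v)) (fun i v => av_Vec Dl (p v) (fun i j => c i j v) i)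
      hp (fun l => DFun.comp1 ((hcs k hk).1 l) hp) ?_
    rintro (i | i)
    · exact hc i.1 i.2
    · exact dsN_def hp hc i
  -- the vectors
  have hex : ∀ v, ∃ e : Fin b → ℤ, (Cs Dl (p v) (fun i j => c i j v) →
      (∀ γ : ℂ, ((Unq.pol e).map (Int.castRingHom ℂ)).IsRoot γ → ‖γ‖ < p v) ∧
      (∀ m, 1 ≤ m → m ≤ 2 ^ (b + 1) →
        (p v : ℤ) ^ (m * ss d Dl) * Unq.rs e (p v) m = Nv m v * (p v : ℤ) ^ (m * (b + 1))) ∧
      (∀ i, (e i).natAbs ≤ 2 ^ b * p v ^ b) ∧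
      ∀ [Fact (p v).Prime], ∀ i : Fin b, (i : ℕ) = 0 →
        (Nat.card {z : ZMod (p v) × ZMod (p v) //
          (bp (ZMod (p v)) fun i j => c i j v).evalEval z.1 z.2 = 0 ∧
          (ds d (bp (ZMod (p v)) fun i j => c i j v)).eval z.1 ≠ 0} : ℤ) = p v + e i) ∧
      (¬ Cs Dl (p v) (fun i j => c i j v) → e = 0) := by
    intro v
    by_cases hC : Cs Dl (p v) (fun i j => c i j v)
    · obtain ⟨hGd, hpr, hD⟩ := hC
      have := Fact.mk hpr
      obtain ⟨e, e1, e2, e3, e4⟩ := exists_vec_Vec hd hGd hD (fun s l => cs s l (p v))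
        (fun s hs => (hcs s hs).2 (p v)) (fun s => Nv s v)
        (fun s hs h _ hm hdeg hl hOk hDl => (hN s hs).2 (p v) h hm hdeg _ hl _ hOk hDl)
      exact ⟨e, fun _ => ⟨e1, e2, e3, fun i hi => e4 i hi⟩,
        fun hn => absurd ⟨hGd, hpr, hD⟩ hn⟩
    · exact ⟨0, fun h => absurd h hC, fun _ => rfl⟩
  choose a ha ha0 using hex
  have hcs' := cs_def Dl hp hc
  set q : (Fin n → ℕ) → ℕ := fun v => if Cs Dl (p v) (fun i j => c i j v) then p v else 1 with hq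
  have hqd : DFun n q := DFun.ite hcs' hp (DFun.const 1)
  have hq1 : ∀ v, Cs Dl (p v) (fun i j => c i j v) → q v = p v := fun v hv => if_pos hv
  have hq2 : ∀ v, ¬ Cs Dl (p v) (fun i j => c i j v) → q v = 1 := fun v hv => if_neg hv
  refine ⟨fun v => a v ⟨0, hb0⟩, ?_, fun v hv _ => (ha v hv).2.2.2 ⟨0, hb0⟩ rfl⟩
  refine Unq.coef_def (q := q) hqd ?_ a (B := fun v => 2 ^ b * q v ^ b)
    ((DFun.const _).mul (PTr.DFun.powConst hqd b)) ?_ ?_
    (e := fun k v => ((q v ^ (k * ss d Dl) : ℕ) : ℤ))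
    (f := fun k v => if Cs Dl (p v) (fun i j => c i j v) then
      ((Nv k v * p v ^ (k * (b + 1)) : ℕ) : ℤ) else 1) ?_ ?_ ?_ ?_ ⟨0, hb0⟩
  · intro v
    by_cases hv : Cs Dl (p v) (fun i j => c i j v)
    · rw [hq1 v hv]
      exact hv.2.1.pos
    · rw [hq2 v hv]
      exact one_pos
  · intro v i
    by_cases hv : Cs Dl (p v) (fun i j => c i j v)
    · show _ ≤ 2 ^ b * q v ^ b
      rw [hq1 v hv]
      exact (ha v hv).2.2.1 i
    · rw [ha0 v hv]
      exact Nat.zero_le _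
  · intro v γ hγ
    by_cases hv : Cs Dl (p v) (fun i j => c i j v)
    · rw [hq1 v hv]
      exact (ha v hv).1 γ hγ
    · rw [ha0 v hv] at hγ
      have h0 : (Unq.pol (0 : Fin b → ℤ)).map (Int.castRingHom ℂ) = X ^ b := by
        unfold Unq.pol
        simp
      rw [h0, IsRoot.def, eval_pow, eval_X] at hγ
      rw [hq2 v hv, pow_eq_zero_iff (by omega) |>.1 hγ, norm_zero, Nat.cast_one]
      exact one_pos
  · intro k _ _
    exact ZF.nat (PTr.DFun.powConst hqd _)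
  · intro k hk _
    exact ZF.ite hcs' (ZF.nat ((hNvd k hk).mul (PTr.DFun.powConst hp _))) (ZF.const 1)
  · intro k v
    have h1 : q v ≠ 0 := by
      by_cases hv : Cs Dl (p v) (fun i j => c i j v)
      · rw [hq1 v hv]
        exact hv.2.1.pos.ne'
      · rw [hq2 v hv]
        exact one_ne_zero
    exact_mod_cast pow_ne_zero _ h1
  · intro k v hk hk2
    by_cases hv : Cs Dl (p v) (fun i j => c i j v)
    · simp only [if_pos hv, hq1 v hv]
      have h1 := (ha v hv).2.1 k hk hk2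
      push_cast
      exact h1
    · simp only [if_neg hv, hq2 v hv, ha0 v hv]
      rw [one_pow, Nat.cast_one, rs_zero_Vec b k hk, one_mul]

end Pool.Agent.CvG
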